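import Pool.Agent.helper60.MW.Spec

set_option autoImplicit false

/-! Choice of the scale, uniform version. -/

namespace Pool.Agent.MW

theorem SCL_tele (E : ℕ → ℝ) (n : ℕ) :
    ∑ b ∈ Finset.range n, (E (2 ^ (b + 1)) - E (2 ^ b)) = E (2 ^ n) - E 1 := by
  have h := Finset.sum_range_sub (fun b => E (2 ^ b)) n
  simpa using h

theorem SCL_two_mul_le (b : ℕ) (hb : 1 ≤ b) : 2 * b ≤ 2 ^ b := by
  induction b with
  | zero => omega
  | succ n ih =>
    rcases Nat.eq_zero_or_pos n with h | h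
    · subst h; norm_num
    · have := ih h
      rw [pow_succ]
      omega

theorem SCL_logbound (m u : ℕ) : Real.log (1 / ((2 : ℝ) ^ u / 2 ^ m)) ≤ m := by
  have h2 : (0 : ℝ) < 2 := by norm_num
  have e : (1 : ℝ) / ((2 : ℝ) ^ u / 2 ^ m) = 2 ^ m / 2 ^ u := by
    rw [one_div_div]
  rw [e, Real.log_div (by positivity) (by positivity), Real.log_pow, Real.log_pow]
  have hl : Real.log 2 ≤ 1 := by
    have := Real.log_le_sub_one_of_pos h2
    linarith
  have hl0 : 0 ≤ Real.log 2 := Real.log_nonneg (by norm_num)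
  have hu : 0 ≤ (u : ℝ) * Real.log 2 := by positivity
  have hm : (m : ℝ) * Real.log 2 ≤ m := by
    have : (m : ℝ) * Real.log 2 ≤ m * 1 := mul_le_mul_of_nonneg_left hl (Nat.cast_nonneg m)
    linarith
  linarith

theorem SCL (hHRM : HRM_stmt) (hBLK : BLK_stmt) : SCL_stmt := by
  intro κ η τ ε L₀ hκ hκ8 hη hη1 hτ hε
  obtain ⟨u, hu⟩ : ∃ u : ℕ, 8 / κ < (2 : ℝ) ^ u := pow_unbounded_of_one_lt _ (by norm_num)
  set A : ℝ := 64 / κ * (48 + 5 * Real.log (1 / κ)) with hA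
  have hlogκ : 0 ≤ Real.log (1 / κ) := by
    apply Real.log_nonneg
    rw [le_div_iff₀ hκ]
    linarith
  have hApos : 0 < A := by positivity
  obtain ⟨C, hC⟩ : ∃ C : ℕ, A ≤ C := exists_nat_ge A
  have hCpos : (0 : ℝ) < C := lt_of_lt_of_le hApos hC
  have hCnat : 1 ≤ C := by
    have : 0 < C := by exact_mod_cast hCpos
    omega
  obtain ⟨c, hc⟩ : ∃ c : ℕ, 192 * C * 2 ^ u / (η * τ) < (2 : ℝ) ^ c :=
    pow_unbounded_of_one_lt _ (by norm_num)
  obtain ⟨b', hb'⟩ : ∃ b' : ℕ, 1000 * 2 ^ u / η < (2 : ℝ) ^ b' :=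
    pow_unbounded_of_one_lt _ (by norm_num)
  set b₀ : ℕ := L₀ + c + b' + 1 with hb₀
  set C' : ℝ := (576 * 2 ^ u / η) ^ 2 / (4 * κ ^ 2) with hC'
  have hC'pos : 0 < C' := by positivity
  obtain ⟨b₁, hb₁⟩ := hHRM (2 * C' * C) ε c b₀ (by positivity) hε
  refine ⟨2 ^ (b₁ + 1), ?_⟩
  intro E hE hE01
  obtain ⟨b, hbb₀, hbb₁, hbe⟩ := hb₁ (fun b => E (2 ^ (b + 1)) - E (2 ^ b))
    (fun b => by
      have := hE (Nat.pow_le_pow_right (n := 2) (by norm_num) (Nat.le_succ b))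
      simpa using sub_nonneg.mpr this)
    (by
      rw [SCL_tele]
      have h1 := (hE01 (2 ^ b₁)).2
      have h2 := (hE01 1).1
      linarith)
  have hb1 : 1 ≤ b := by omega
  have h2b := SCL_two_mul_le b hb1
  obtain ⟨L, hL1, hL2, hL3⟩ := hBLK E b (b + c) hE (by omega) (by omega)
  have hbpow : b < 2 ^ b := Nat.lt_two_pow_self
  have hp2 : (0 : ℝ) < 2 ^ u := by positivity
  have hpL : (0 : ℝ) < 2 ^ (L + (b + c)) := by positivity
  have hpb : (0 : ℝ) < 2 ^ b := by positivity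
  refine ⟨L, b + c, C * 2 ^ b, 2 ^ u / 2 ^ (L + (b + c)),
    192 * (C * 2 ^ b) * 2 ^ u / η / 2 ^ (L + (b + c)), by omega, ?_, ?_, by positivity, ?_, ?_⟩
  · refine le_trans hL2 (Nat.pow_le_pow_right (by norm_num) (by omega))
  · refine ⟨hκ, hκ8, hη, hη1, by positivity, ?_, ?_, ?_, ?_, ?_⟩
    · -- a ≤ η / 1000
      rw [div_le_div_iff₀ hpL (by norm_num)]
      have h1 : (2 : ℝ) ^ b' ≤ 2 ^ (L + (b + c)) :=
        pow_le_pow_right₀ (by norm_num) (by omega)
      rw [div_lt_iff₀ hη] at hb'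
      nlinarith
    · -- 8 / 2^L ≤ κ a
      rw [← mul_div_assoc]
      apply div_le_div_of_nonneg_right _ hpL.le
      rw [div_lt_iff₀ hκ] at hu
      linarith
    · have : 0 < C * 2 ^ b := by positivity
      omega
    · -- log inequality
      have hlog := SCL_logbound (L + (b + c)) u
      have hm : ((L + (b + c) : ℕ) : ℝ) ≤ 2 * 2 ^ b := by
        have : ((L + (b + c) : ℕ) : ℝ) ≤ ((2 ^ (b + 1) : ℕ) : ℝ) := by exact_mod_cast hL2
        refine this.trans (le_of_eq ?_)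
        push_cast
        rw [pow_succ]; ring
      have h1b : (1 : ℝ) ≤ 2 ^ b := one_le_pow₀ (by norm_num)
      have key : 4 * Real.log (1 / ((2 : ℝ) ^ u / 2 ^ (L + (b + c)))) + 5 * Real.log (1 / κ) + 40 ≤
          (48 + 5 * Real.log (1 / κ)) * 2 ^ b := by
        have h3 : 5 * Real.log (1 / κ) ≤ 5 * Real.log (1 / κ) * 2 ^ b :=
          le_mul_of_one_le_right (by positivity) h1b
        nlinarith
      calc 64 / κ * (4 * Real.log (1 / ((2 : ℝ) ^ u / 2 ^ (L + (b + c)))) + 5 * Real.log (1 / κ) + 40)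
          ≤ 64 / κ * ((48 + 5 * Real.log (1 / κ)) * 2 ^ b) :=
            mul_le_mul_of_nonneg_left key (by positivity)
        _ = A * 2 ^ b := by rw [hA]; ring
        _ ≤ C * 2 ^ b := mul_le_mul_of_nonneg_right hC hpb.le
        _ = ((C * 2 ^ b : ℕ) : ℝ) := by push_cast; ring
    · apply le_of_eq
      push_cast
      ring
  · -- W 2^L ≤ τ
    have e : 192 * ((C : ℝ) * 2 ^ b) * 2 ^ u / η / 2 ^ (L + (b + c)) * 2 ^ L =
        192 * C * 2 ^ u / η / 2 ^ c := by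
      rw [pow_add, pow_add]
      field_simp
    rw [e, div_le_iff₀ (by positivity)]
    rw [div_lt_iff₀ (by positivity)] at hc
    rw [div_le_iff₀ hη]
    nlinarith
  · -- energy
    have e1 : 192 * ((C : ℝ) * 2 ^ b) * 2 ^ u / η / 2 ^ (L + (b + c)) * 2 ^ (L + (b + c)) =
        192 * (C * 2 ^ b) * 2 ^ u / η := by
      field_simp
    have hX : (1 : ℝ) ≤ 192 * (C * 2 ^ b) * 2 ^ u / η := by
      rw [le_div_iff₀ hη]
      have h1 : (1 : ℝ) ≤ C := by exact_mod_cast hCnat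
      have h2 : (1 : ℝ) ≤ 2 ^ b := one_le_pow₀ (by norm_num)
      have h3 : (1 : ℝ) ≤ 2 ^ u := one_le_pow₀ (by norm_num)
      have h4 : (1 : ℝ) ≤ C * 2 ^ b := by nlinarith
      have h5 : (1 : ℝ) ≤ (C * 2 ^ b) * 2 ^ u := by nlinarith
      nlinarith
    have hEd : 0 ≤ E (L + (b + c)) - E L := sub_nonneg.mpr (hE (by omega))
    have hcoef : (1 + 2 * (192 * ((C : ℝ) * 2 ^ b) * 2 ^ u / η / 2 ^ (L + (b + c))) *
        2 ^ (L + (b + c))) ^ 2 / (4 * κ ^ 2 * ((C * 2 ^ b : ℕ) : ℝ)) ≤ C' * (C * 2 ^ b) := by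
      have e2 : 2 * (192 * ((C : ℝ) * 2 ^ b) * 2 ^ u / η / 2 ^ (L + (b + c))) *
        2 ^ (L + (b + c)) = 2 * (192 * (C * 2 ^ b) * 2 ^ u / η) := by
        rw [mul_assoc, e1]
      rw [e2]
      rw [div_le_iff₀ (by positivity)]
      have hsq : (1 + 2 * (192 * ((C : ℝ) * 2 ^ b) * 2 ^ u / η)) ^ 2 ≤
          (3 * (192 * ((C : ℝ) * 2 ^ b) * 2 ^ u / η)) ^ 2 := by
        apply pow_le_pow_left₀ (by positivity)
        linarith
      refine hsq.trans (le_of_eq ?_)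
      rw [hC']
      push_cast
      field_simp
      ring
    have hfin : C' * (C * 2 ^ b) * (E (L + (b + c)) - E L) ≤ ε := by
      have h1 : C' * (C * 2 ^ b) * (E (L + (b + c)) - E L) =
          C' * C * ((E (L + (b + c)) - E L) * 2 ^ b) := by ring
      rw [h1]
      have h2 : C' * C * ((E (L + (b + c)) - E L) * 2 ^ b) ≤
          C' * C * (2 * ((b + c : ℕ) : ℝ) * (E (2 ^ (b + 1)) - E (2 ^ b))) :=
        mul_le_mul_of_nonneg_left hL3 (by positivity)
      refine h2.trans ?_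
      refine le_trans (le_of_eq ?_) hbe
      push_cast
      ring
    exact le_trans (mul_le_mul_of_nonneg_right hcoef hEd) hfin

end Pool.Agent.MW
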